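import Pool.Agent.K6.H56.GP.ASY
import Pool.Agent.H295R3.Hoheisel

set_option autoImplicit false

/-!
MP_2920eb_co: the asymptotic value, with a power saving, of the supremum of the gaps of the connected
graphs of minimum degree at least `d`, for all `d`, whether or not projective planes of order `d - 1`
exist (planes over prime fields and primes in short intervals).
-/

namespace Pool.Agent.Results.MP_2920eb_co.AsymptoticValue

open Pool.Agent.H444R3.GapDefs Pool.Agent.K6.H56.GP

/-- there are `δ > 0` and `C` such that `(1 - C d^(-δ)) / √d ≤ gap(G_{≥ d}) ≤ √(d - 1) / d` for all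
`d ≥ 4` -/
theorem result : ∃ δ C : ℝ, 0 < δ ∧ ∀ d : ℕ, 4 ≤ d →
    (1 - C * (d : ℝ) ^ (-δ)) / Real.sqrt d ≤ sSup (gapsMin d) ∧
    sSup (gapsMin d) ≤ Real.sqrt ((d : ℝ) - 1) / d :=
  ASY.asym Pool.Agent.H295R3.D.hoheisel

end Pool.Agent.Results.MP_2920eb_co.AsymptoticValue
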