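import Pool.Agent.K6.H56.GP.FIN
import Pool.Agent.K6.H56.GP.BR

set_option autoImplicit false

/-!
MP_2920eb_co: the conjecture on the extremal graphs is false for the family of the graphs of minimum degree
at least `d`, for all prime powers `d` such that there is no projective plane of order `d - 1` (and for
more `d`); unconditionally for infinitely many `d`.

The piece BR is by helper5.
-/

namespace Pool.Agent.Results.MP_2920eb_co.DesignsNotExtremal

open Pool.Agent.H444R3.GapDefs Pool.Agent.K6.H56.GP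

/-- (1) if no projective plane of order `d - 1` exists, `d ≥ 4`, if `d - 1 + j` is a prime power, `j ≥ 1`,
and there are no symmetric `(v, d, l)` designs with `2 ≤ l ≤ j` (no condition for `j = 1`), then every
incidence graph of a design with block size `d` of minimum degree at least `d` has gap at most
`√(d - 1 - j) / d`, and the supremum of the gaps in the family is at least `√(d - 1 + j) / (d + j)`,
which is strictly larger; (2) for prime powers `d = 3 (mod 4)`, `d > 3`, such that a prime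
`p = 3 (mod 4)` divides `d - 1` exactly once, no plane of order `d - 1` exists, the supremum is at
least `√d / (d + 1)`, and all these design graphs have a smaller gap than the supremum; (3) there are
infinitely many such primes `d`. -/
theorem result :
    (∀ d j : ℕ, 4 ≤ d → 1 ≤ j → ¬ PlaneExists (d - 1) → IsPrimePow (d - 1 + j) →
      (∀ l, 2 ≤ l → l ≤ j → ¬ SymDesign d l) →
      (∀ (V : Type) [Fintype V] (G : SimpleGraph V), IsMinDeg d G → IsDesignGraph G d →
        gap G ≤ Real.sqrt ((d : ℝ) - 1 - j) / d) ∧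
      Real.sqrt ((d : ℝ) - 1 - j) / d < Real.sqrt ((d : ℝ) - 1 + j) / ((d : ℝ) + j) ∧
      Real.sqrt ((d : ℝ) - 1 + j) / ((d : ℝ) + j) ≤ sSup (gapsMin d)) ∧
    (∀ d p : ℕ, 4 ≤ d → IsPrimePow d → d % 4 = 3 → p.Prime → p % 4 = 3 → p ∣ d - 1 →
      ¬ p ^ 2 ∣ d - 1 →
      ¬ PlaneExists (d - 1) ∧ Real.sqrt d / ((d : ℝ) + 1) ≤ sSup (gapsMin d) ∧
      (∀ (V : Type) [Fintype V] (G : SimpleGraph V), IsMinDeg d G → IsDesignGraph G d →
        gap G < sSup (gapsMin d))) ∧
    {d : ℕ | d.Prime ∧ d % 4 = 3 ∧ 4 ≤ d ∧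
      ∃ p : ℕ, p.Prime ∧ p % 4 = 3 ∧ p ∣ d - 1 ∧ ¬ p ^ 2 ∣ d - 1}.Infinite := by
  have h2 : ∀ d j : ℕ, 4 ≤ d → 1 ≤ j → ¬ PlaneExists (d - 1) → IsPrimePow (d - 1 + j) →
      (∀ l, 2 ≤ l → l ≤ j → ¬ SymDesign d l) →
      (∀ (V : Type) [Fintype V] (G : SimpleGraph V), IsMinDeg d G → IsDesignGraph G d →
        gap G ≤ Real.sqrt ((d : ℝ) - 1 - j) / d) ∧
      Real.sqrt ((d : ℝ) - 1 - j) / d < Real.sqrt ((d : ℝ) - 1 + j) / ((d : ℝ) + j) ∧
      Real.sqrt ((d : ℝ) - 1 + j) / ((d : ℝ) + j) ≤ sSup (gapsMin d) := by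
    intro d j hd hj hno hpp hno'
    refine ⟨?_, FIN.num2 (by exact_mod_cast hd) (by exact_mod_cast hj),
      FIN.lower d j hd hj hpp⟩
    intro V _ G hG hD
    exact FIN.design_up d j hd hno hno' G hG hD
  refine ⟨h2, ?_, FIN.inf_d⟩
  intro d p hd hpp h4 hp hp4 hpd hpd2
  have hno : ¬ PlaneExists (d - 1) := t_BR (d - 1) p (by omega) hp hp4 hpd hpd2
  obtain ⟨h6, h7, h5⟩ := h2 d 1 hd le_rfl hno
    (by rw [Nat.sub_add_cancel (by omega)]; exact hpp) (fun l hl hl' => by omega)
  rw [Nat.cast_one] at h5 h7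
  simp only [Nat.cast_one] at h6
  have e1 : (d : ℝ) - 1 + 1 = d := by ring
  rw [e1] at h5 h7
  exact ⟨hno, h5, fun V _ G hG hD =>
    lt_of_lt_of_le (lt_of_le_of_lt (h6 V G hG hD) h7) h5⟩

end Pool.Agent.Results.MP_2920eb_co.DesignsNotExtremal
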