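import Pool.Agent.K6.H56.GP.FIN
import Pool.Agent.K6.H56.GP.VAR

set_option autoImplicit false

/-!
MP_2920eb_co: a uniformly smaller upper bound for the gap in the family of the connected graphs of
minimum degree at least `d`, when there is no finite projective plane of order `d - 1`.

The pieces VAR and PLN are by helper5.
-/

namespace Pool.Agent.Results.MP_2920eb_co.MinimumDegreeUpperBound

open Pool.Agent.H444R3.GapDefs Pool.Agent.K6.H56.GP

/-- for every `d ≥ 4`, every connected graph of minimum degree at least `d` that is not `d`-regular has gap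
at most `√(d - 1 - 1/(3(d+1))) / d`; if no projective plane of order `d - 1` exists, then the supremum
of the gaps of all connected graphs of minimum degree at least `d` is at most this number -/
theorem result (d : ℕ) (hd : 4 ≤ d) :
    (∀ (V : Type) [Fintype V] (G : SimpleGraph V), IsMinDeg d G →
      (∃ v, (nbrs G v).card ≠ d) →
      gap G ≤ Real.sqrt ((d : ℝ) - 1 - 1 / (3 * ((d : ℝ) + 1))) / d) ∧
    (¬ PlaneExists (d - 1) →
      sSup (gapsMin d) ≤ Real.sqrt ((d : ℝ) - 1 - 1 / (3 * ((d : ℝ) + 1))) / d) :=
  ⟨fun _ _ G hG hv => FIN.upper_gap t_VAR d hd G hG (Or.inr (not_forall.2 hv)),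
    fun hno => FIN.upper_sup t_VAR d hd hno⟩

end Pool.Agent.Results.MP_2920eb_co.MinimumDegreeUpperBound
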